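import Pool.Agent.E8helper95.CL.Small

/-!
# MP_cd7e06_al: commutator lengths of powers in the free group of rank two

`F₂` is `FreeGroup Bool`.
-/

set_option autoImplicit false

namespace Pool.Agent.Results.MP_cd7e06_al.AdmissiblePairsH95

open Pool.Agent.E8helper95.CL
open scoped commutatorElement

/-- `z` is a product of `n` commutators `[x, y] = x y x⁻¹ y⁻¹` -/
def IsProductOf (n : ℕ) (z : FreeGroup Bool) : Prop :=
  ∃ x y : Fin n → FreeGroup Bool, z = (List.ofFn fun i => x i * y i * (x i)⁻¹ * (y i)⁻¹).prod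

/-- the commutator length (for `z` in the derived subgroup) -/
noncomputable def cl (z : FreeGroup Bool) : ℕ := sInf {n | IsProductOf n z}

/-- the pair `(k, m)` is admissible -/
def Admissible (k m : ℕ) : Prop := ∃ w ∈ commutator (FreeGroup Bool), cl (w ^ m) = k

theorem isProductOf_iff (n : ℕ) (z : FreeGroup Bool) : IsProductOf n z ↔ PC n z := by
  constructor
  · rintro ⟨x, y, rfl⟩
    refine ⟨List.ofFn fun i => (x i, y i), by simp, ?_⟩
    rw [List.map_ofFn]
    rfl
  · rintro ⟨L, rfl, rfl⟩
    refine ⟨fun i => (L.get i).1, fun i => (L.get i).2, ?_⟩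
    congr 1
    apply List.ext_get
    · simp
    · intro i h1 h2
      simp [commutatorElement_def]

theorem admissible_of_good {k m : ℕ} (h : Good k m) : Admissible k m := by
  obtain ⟨w, hw, h1, h2⟩ := h
  refine ⟨w, hw, ?_⟩
  have h3 : IsLeast {n | IsProductOf n (w ^ m)} k :=
    ⟨(isProductOf_iff _ _).2 h1, fun g hg => h2 g ((isProductOf_iff _ _).1 hg)⟩
  exact h3.csInf_eq

theorem good_1_1 : Good 1 1 := by
  refine ⟨⁅FreeGroup.of false, FreeGroup.of true⁆, ?_, ?_, ?_⟩
  · exact (PC.comm _ _).mem
  · rw [pow_one]; exact PC.comm _ _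
  · intro g hg
    rcases g with _ | g
    · exfalso
      obtain ⟨L, h1, h2⟩ := hg
      rw [List.length_eq_zero_iff] at h1
      subst h1
      rw [pow_one] at h2
      have h3 : (⁅FreeGroup.of false, FreeGroup.of true⁆ : FreeGroup Bool) ≠ 1 := by
        decide +kernel
      exact h3 h2
    · omega

theorem result : ∀ m k : ℕ, 1 ≤ m → m / 2 + 1 ≤ k →
    (m ≤ 12 ∧ ¬ (k = 6 ∧ m = 9) ∧ ¬ (k = 7 ∧ m = 11)) ∨
    m * m + m + 2 < 4 * k ∨
    (∃ r s t : ℕ, Even s ∧ t < r ∧ t < s ∧
      (2 * k - 3 : ℚ) < m * (r - t / s) ∧ (m * (r - t / s) : ℚ) ≤ 2 * k - 1) →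
    Admissible k m := by
  intro m k hm hk h
  apply admissible_of_good
  rcases Nat.lt_or_ge (m * m + m + 2) (4 * k) with hb | hb
  · exact big m k hm hb
  · rcases h with ⟨hm12, h69, h711⟩ | h | ⟨r, s, t, ⟨c, hc⟩, htr, hts, h1, h2⟩
    · interval_cases m
      · have : k = 1 := by omega
        rw [this]
        exact good_1_1
      · exact small_2 k hk
      · exact small_3 k hk
      · exact small_4 k hk
      · exact small_5 k hk
      · exact small_6 k hk
      · exact small_7 k hk
      · exact small_8 k hk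
      · exact small_9 k hk (fun h => h69 ⟨h, rfl⟩)
      · exact small_10 k hk
      · exact small_11 k hk (fun h => h711 ⟨h, rfl⟩)
      · exact small_12 k hk
    · omega
    · rcases Nat.lt_or_ge k 2 with hk2 | hk2
      · have hk1 : k = 1 := by omega
        have hm1 : m = 1 := by omega
        rw [hk1, hm1]
        exact good_1_1
      · have hs : s = 2 * c := by omega
        subst hs
        have hc0 : 0 < c := by omega
        have hcq : (0 : ℚ) < ((2 * c : ℕ) : ℚ) := by exact_mod_cast (by omega : 0 < 2 * c)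
        have e1 : ((2 * c : ℕ) : ℚ) * (m * (r - t / ((2 * c : ℕ) : ℚ))) =
            ((2 * c : ℕ) : ℚ) * (m * r) - m * t := by
          field_simp
        have h3 := mul_lt_mul_of_pos_left h1 hcq
        have h4 := mul_le_mul_of_nonneg_left h2 hcq.le
        rw [e1] at h3 h4
        obtain ⟨j, rfl⟩ : ∃ j, k = j + 1 := ⟨k - 1, by omega⟩
        have e2 : 2 * (j + 1) - 1 = 2 * j + 1 := by omega
        refine one_sided m (j + 1) r t c hk2 htr hts ?_ ?_
        · rw [e2]
          have h5 : ((2 * c * (m * r) : ℕ) : ℚ) ≤ ((2 * c * (2 * j + 1) + m * t : ℕ) : ℚ) := by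
            push_cast at h4 ⊢
            linarith
          exact_mod_cast h5
        · rw [e2]
          have h5 : ((2 * c * (2 * j + 1) + m * t : ℕ) : ℚ) <
              ((2 * c * (m * r) + 2 * (2 * c) : ℕ) : ℚ) := by
            push_cast at h3 ⊢
            linarith
          exact_mod_cast h5

end Pool.Agent.Results.MP_cd7e06_al.AdmissiblePairsH95
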